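import Mathlib

set_option autoImplicit false

open MeasureTheory Matrix

namespace Pool.Agent.Results.MP_082b65_an.RandSVD

/-! ### Definitions used in the statement -/

/-- Squared Euclidean norm of a vector. -/
def sqNorm {m : ℕ} (x : Fin m → ℝ) : ℝ := ∑ i, x i ^ 2

/-- Frobenius norm of a matrix. -/
noncomputable def frob {m p : ℕ} (M : Matrix (Fin m) (Fin p) ℝ) : ℝ :=
  Real.sqrt (∑ i, ∑ j, M i j ^ 2)

/-- `P` is the Moore-Penrose pseudoinverse of `M` (the four Penrose equations). -/
def IsPinv {m p : ℕ} (M : Matrix (Fin m) (Fin p) ℝ) (P : Matrix (Fin p) (Fin m) ℝ) : Prop :=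
  M * P * M = M ∧ P * M * P = P ∧ (M * P)ᵀ = M * P ∧ (P * M)ᵀ = P * M

/-- Every real matrix has a Moore-Penrose pseudoinverse. -/
theorem exists_isPinv {m p : ℕ} (M : Matrix (Fin m) (Fin p) ℝ) : ∃ P, IsPinv M P := by
  classical
  have hG : (Mᵀ * M).IsHermitian := by
    rw [Matrix.IsHermitian, Matrix.conjTranspose_eq_transpose_of_trivial]
    simp [Matrix.transpose_mul]
  obtain ⟨U, D, hU, hU', hGU⟩ : ∃ (U : Matrix (Fin p) (Fin p) ℝ) (D : Fin p → ℝ),
      Uᵀ * U = 1 ∧ U * Uᵀ = 1 ∧ Mᵀ * M = U * diagonal D * Uᵀ := by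
    refine ⟨hG.eigenvectorUnitary, hG.eigenvalues, ?_, ?_, ?_⟩
    · have := Unitary.coe_star_mul_self hG.eigenvectorUnitary
      rwa [Matrix.star_eq_conjTranspose, Matrix.conjTranspose_eq_transpose_of_trivial] at this
    · have := Unitary.coe_mul_star_self hG.eigenvectorUnitary
      rwa [Unitary.coe_star, Matrix.star_eq_conjTranspose,
        Matrix.conjTranspose_eq_transpose_of_trivial] at this
    · have := hG.spectral_theorem
      rw [Unitary.conjStarAlgAut_apply, Matrix.star_eq_conjTranspose,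
        Matrix.conjTranspose_eq_transpose_of_trivial] at this
      simpa using this
  set G := Mᵀ * M with hGdef
  set g := U * diagonal (fun i => (D i)⁻¹) * Uᵀ with hg
  have hgT : gᵀ = g := by
    simp [hg, Matrix.transpose_mul, Matrix.mul_assoc]
  have hGT : Gᵀ = G := by simp [hGdef, Matrix.transpose_mul]
  have key : ∀ a b : Fin p → ℝ, (U * diagonal a * Uᵀ) * (U * diagonal b * Uᵀ)
      = U * diagonal (fun i => a i * b i) * Uᵀ := by
    intro a b
    calc (U * diagonal a * Uᵀ) * (U * diagonal b * Uᵀ)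
        = U * diagonal a * (Uᵀ * U) * diagonal b * Uᵀ := by simp only [Matrix.mul_assoc]
      _ = U * (diagonal a * diagonal b) * Uᵀ := by rw [hU]; simp only [Matrix.mul_assoc, Matrix.mul_one]
      _ = _ := by rw [Matrix.diagonal_mul_diagonal]
  have hgG : g * G = G * g := by
    rw [hGU, hg, key, key]; simp [mul_comm]
  have hgGg : g * G * g = g := by
    rw [hGU, hg, key, key]
    congr 3
    ext i
    by_cases h : D i = 0
    · simp [h]
    · field_simp
  have hGgG : G * (g * G) = G := by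
    rw [hGU, hg, key, key]
    congr 3
    ext i
    by_cases h : D i = 0
    · simp [h]
    · field_simp
  have hM : M * (g * G) = M := by
    have h0 : (M * (g * G) - M)ᴴ * (M * (g * G) - M) = 0 := by
      rw [Matrix.conjTranspose_eq_transpose_of_trivial]
      have : (M * (g * G) - M)ᵀ * (M * (g * G) - M)
          = (g * G)ᵀ * (G * (g * G)) - (g * G)ᵀ * G - G * (g * G) + G := by
        rw [Matrix.transpose_sub, Matrix.transpose_mul, Matrix.sub_mul, Matrix.mul_sub,
          Matrix.mul_sub]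
        simp only [hGdef, Matrix.mul_assoc]
        abel
      rw [this, hGgG]; simp
    exact sub_eq_zero.mp (Matrix.conjTranspose_mul_self_eq_zero.mp h0)
  refine ⟨g * Mᵀ, ?_, ?_, ?_, ?_⟩
  · rw [Matrix.mul_assoc, Matrix.mul_assoc]; exact hM
  · rw [← Matrix.mul_assoc, Matrix.mul_assoc g, ← hGdef, hgGg]
  · rw [Matrix.transpose_mul, Matrix.transpose_mul, hgT, Matrix.transpose_transpose,
      Matrix.mul_assoc]
  · rw [Matrix.mul_assoc, ← hGdef, Matrix.transpose_mul, hgT, hGT, hgG]

/-- The Moore-Penrose pseudoinverse is unique. -/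
theorem IsPinv.unique {m p : ℕ} {M : Matrix (Fin m) (Fin p) ℝ} {P Q : Matrix (Fin p) (Fin m) ℝ}
    (hP : IsPinv M P) (hQ : IsPinv M Q) : P = Q := by
  obtain ⟨p1, p2, p3, p4⟩ := hP
  obtain ⟨q1, q2, q3, q4⟩ := hQ
  have e1 : M * P = M * Q := by
    calc M * P = (M * P)ᵀ := p3.symm
      _ = (M * Q * M * P)ᵀ := by rw [q1]
      _ = ((M * Q) * (M * P))ᵀ := by simp only [Matrix.mul_assoc]
      _ = (M * P) * (M * Q) := by rw [Matrix.transpose_mul, p3, q3]
      _ = M * P * M * Q := by simp only [Matrix.mul_assoc]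
      _ = M * Q := by rw [p1]
  have e2 : P * M = Q * M := by
    calc P * M = (P * M)ᵀ := p4.symm
      _ = (P * (M * Q * M))ᵀ := by rw [q1]
      _ = ((P * M) * (Q * M))ᵀ := by simp only [Matrix.mul_assoc]
      _ = (Q * M) * (P * M) := by rw [Matrix.transpose_mul, p4, q4]
      _ = Q * (M * P * M) := by simp only [Matrix.mul_assoc]
      _ = Q * M := by rw [p1]
  calc P = P * M * P := p2.symm
    _ = Q * (M * P) := by rw [e2, Matrix.mul_assoc]
    _ = Q * M * Q := by rw [e1, Matrix.mul_assoc]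
    _ = Q := q2

/-- The Moore-Penrose pseudoinverse. -/
noncomputable def pinv {m p : ℕ} (M : Matrix (Fin m) (Fin p) ℝ) : Matrix (Fin p) (Fin m) ℝ :=
  Classical.choose (exists_isPinv M)

theorem pinv_spec {m p : ℕ} (M : Matrix (Fin m) (Fin p) ℝ) : IsPinv M (pinv M) :=
  Classical.choose_spec (exists_isPinv M)

/-- `Om` is an oblivious subspace injection of dimension `r` with injectivity `al` and failure
probability `de`, over the probability space `(S, P)`. -/
structure IsOSI {S : Type} [MeasurableSpace S] (P : Measure S) {d k : ℕ}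
    (Om : S → Matrix (Fin d) (Fin k) ℝ) (r : ℕ) (al de : ℝ) : Prop where
  /-- `Om` is a random matrix. -/
  measurable : ∀ i j, Measurable fun s => Om s i j
  integrable : ∀ x : Fin d → ℝ, Integrable (fun s => sqNorm ((Om s)ᵀ *ᵥ x)) P
  /-- Isotropy. -/
  isotropy : ∀ x : Fin d → ℝ, ∫ s, sqNorm ((Om s)ᵀ *ᵥ x) ∂P = sqNorm x
  /-- Injectivity on each fixed subspace of dimension `r`. -/
  injectivity : ∀ V : Submodule ℝ (Fin d → ℝ), Module.finrank ℝ V = r →
    1 - de ≤ P.real {s | ∀ x ∈ V, al * sqNorm x ≤ sqNorm ((Om s)ᵀ *ᵥ x)}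

/-- The error `‖A - A_r‖_F` of a best rank-`r` approximation in Frobenius norm. -/
noncomputable def bestErr {n d : ℕ} (A : Matrix (Fin n) (Fin d) ℝ) (r : ℕ) : ℝ :=
  ⨅ B : {B : Matrix (Fin n) (Fin d) ℝ // B.rank ≤ r}, frob (A - B.1)

/-- The randomized SVD approximation `(A Ω)(A Ω)⁺ A`. -/
noncomputable def rsvd {n d k : ℕ} (Om : Matrix (Fin d) (Fin k) ℝ)
    (A : Matrix (Fin n) (Fin d) ℝ) : Matrix (Fin n) (Fin d) ℝ :=
  (A * Om) * pinv (A * Om) * A

/-! ### A weighted discrete measure on a finite type -/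

section measure

variable {S : Type} [Fintype S] [MeasurableSpace S] [MeasurableSingletonClass S]

noncomputable def mu (w : S → ℝ) : Measure S := ∑ i, ENNReal.ofReal (w i) • Measure.dirac i

variable {w : S → ℝ}

theorem mu_real (h0 : ∀ i, 0 ≤ w i) (s : Set S) [DecidablePred (· ∈ s)] :
    (mu w).real s = ∑ i, if i ∈ s then w i else 0 := by
  rw [Measure.real, mu, Measure.finsetSum_apply, ENNReal.toReal_sum]
  · refine Finset.sum_congr rfl fun i _ => ?_
    by_cases h : i ∈ s
    · simp [h, h0]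
    · simp [h]
  · intro i _
    by_cases h : i ∈ s
    · simp [h]
    · simp [h]

theorem mu_prob (h0 : ∀ i, 0 ≤ w i) (h1 : ∑ i, w i = 1) : IsProbabilityMeasure (mu w) := by
  refine ⟨?_⟩
  classical
  have h := mu_real h0 Set.univ
  simp only [Set.mem_univ, if_true, h1] at h
  rwa [Measure.real, ENNReal.toReal_eq_one_iff] at h

theorem mu_integral (h0 : ∀ i, 0 ≤ w i) (f : S → ℝ) :
    ∫ s, f s ∂(mu w) = ∑ i, w i * f i := by
  rw [mu, integral_finsetSum_measure]
  · refine Finset.sum_congr rfl fun i _ => ?_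
    rw [integral_smul_measure, integral_dirac, ENNReal.toReal_ofReal (h0 i), smul_eq_mul]
  · intro i _
    exact (integrable_dirac (by simp)).smul_measure (by simp)

theorem mu_integrable (f : S → ℝ) : Integrable f (mu w) := by
  rw [mu, integrable_finsetSum_measure]
  intro i _
  exact (integrable_dirac (by simp)).smul_measure (by simp)

end measure

/-! ### Averaging over one coordinate -/

section avg

variable {ι κ : Type} [Fintype ι] [DecidableEq ι] [Fintype κ]

theorem sum_update (j : ι) (F : (ι → κ) → ℝ) :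
    ∑ h : ι → κ, ∑ t : κ, F (Function.update h j t) = Fintype.card κ * ∑ h, F h := by
  rw [← (Equiv.funSplitAt j κ).symm.sum_comp (fun h => ∑ t : κ, F (Function.update h j t)),
    ← (Equiv.funSplitAt j κ).symm.sum_comp F, Fintype.sum_prod_type, Fintype.sum_prod_type]
  have key : ∀ (a : κ) (g : {i // i ≠ j} → κ) (t : κ),
      Function.update ((Equiv.funSplitAt j κ).symm (a, g)) j t
        = (Equiv.funSplitAt j κ).symm (t, g) := by
    intro a g t
    ext i
    by_cases h : i = j
    · subst h; simp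
    · simp [h, Function.update_of_ne]
  simp only [key]
  rw [Finset.sum_const, Finset.card_univ, nsmul_eq_mul]
  congr 1
  rw [Finset.sum_comm]

/-- If averaging over coordinate `j` gives zero, the total sum is zero. -/
theorem sum_eq_zero_of_coord [Nonempty κ] (j : ι) (F : (ι → κ) → ℝ)
    (hF : ∀ h, ∑ t : κ, F (Function.update h j t) = 0) : ∑ h, F h = 0 := by
  have h1 := sum_update j F
  simp only [hF, Finset.sum_const_zero] at h1
  have h2 : (Fintype.card κ : ℝ) ≠ 0 := by exact_mod_cast Fintype.card_ne_zero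
  rcases mul_eq_zero.mp h1.symm with h | h
  · exact absurd h h2
  · exact h

end avg

/-! ### CountSketch -/

section cs

variable {D k : ℕ}

/-- Sign of a boolean. -/
def sg (b : Bool) : ℝ := if b then 1 else -1

theorem sg_sq (b : Bool) : sg b ^ 2 = 1 := by cases b <;> simp [sg]

theorem sg_sum : ∑ t : Bool, sg t = 0 := by simp [sg]

/-- Collision indicator. -/
def col (h : Fin D → Fin k) (i j : Fin D) : ℝ := if h i = h j then 1 else 0

theorem col_sq (h : Fin D → Fin k) (i j : Fin D) : col h i j ^ 2 = col h i j := by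
  unfold col; split_ifs <;> simp

/-- The CountSketch matrix. -/
def cs (h : Fin D → Fin k) (σ : Fin D → Bool) : Matrix (Fin D) (Fin k) ℝ :=
  fun i b => if h i = b then sg (σ i) else 0

/-- Cross terms. -/
def tm (x : Fin D → ℝ) (h : Fin D → Fin k) (σ : Fin D → Bool) (p : Fin D × Fin D) : ℝ :=
  col h p.1 p.2 * (sg (σ p.1) * sg (σ p.2)) * (x p.1 * x p.2)

/-- Ordered pairs. -/
def prs (D : ℕ) : Finset (Fin D × Fin D) := Finset.univ.filter fun p => p.1 < p.2

theorem sum_offdiag (f : Fin D → Fin D → ℝ) (hf : ∀ i j, f i j = f j i) :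
    ∑ i, ∑ j, f i j = ∑ i, f i i + 2 * ∑ p ∈ prs D, f p.1 p.2 := by
  have h1 : ∑ i, ∑ j, f i j = ∑ p : Fin D × Fin D, f p.1 p.2 := by
    rw [Fintype.sum_prod_type]
  have h2 : ∑ p : Fin D × Fin D, f p.1 p.2
      = ∑ p ∈ prs D, f p.1 p.2 + ∑ p ∈ Finset.univ.filter (fun p : Fin D × Fin D => ¬ p.1 < p.2),
        f p.1 p.2 := by
    rw [prs, Finset.sum_filter_add_sum_filter_not]
  have h3 : ∑ p ∈ Finset.univ.filter (fun p : Fin D × Fin D => ¬ p.1 < p.2), f p.1 p.2
      = ∑ p ∈ (Finset.univ.filter (fun p : Fin D × Fin D => ¬ p.1 < p.2)).filter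
          (fun p => p.1 = p.2), f p.1 p.2
        + ∑ p ∈ (Finset.univ.filter (fun p : Fin D × Fin D => ¬ p.1 < p.2)).filter
          (fun p => ¬ p.1 = p.2), f p.1 p.2 := by
    rw [Finset.sum_filter_add_sum_filter_not]
  have h4 : ∑ p ∈ (Finset.univ.filter (fun p : Fin D × Fin D => ¬ p.1 < p.2)).filter
          (fun p => p.1 = p.2), f p.1 p.2 = ∑ i, f i i := by
    refine Finset.sum_bij' (fun p _ => p.1) (fun i _ => (i, i)) ?_ ?_ ?_ ?_ ?_
    · simp
    · simp
    · rintro ⟨a, b⟩ hp
      simp at hp ⊢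
      exact hp.2
    · simp
    · rintro ⟨a, b⟩ hp
      simp at hp ⊢
      rw [hp.2]
  have h5 : ∑ p ∈ (Finset.univ.filter (fun p : Fin D × Fin D => ¬ p.1 < p.2)).filter
          (fun p => ¬ p.1 = p.2), f p.1 p.2 = ∑ p ∈ prs D, f p.1 p.2 := by
    refine Finset.sum_bij' (fun p _ => (p.2, p.1)) (fun p _ => (p.2, p.1)) ?_ ?_ ?_ ?_ ?_
    · rintro ⟨a, b⟩ hp
      simp [prs] at hp ⊢
      exact lt_of_le_of_ne hp.1 (Ne.symm hp.2)
    · rintro ⟨a, b⟩ hp
      simp [prs] at hp ⊢
      exact ⟨hp.le, hp.ne'⟩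
    · simp
    · simp
    · rintro ⟨a, b⟩ hp
      exact hf _ _
  rw [h1, h2, h3, h4, h5]; ring

theorem cs_sq (h : Fin D → Fin k) (σ : Fin D → Bool) (x : Fin D → ℝ) :
    sqNorm ((cs h σ)ᵀ *ᵥ x) = sqNorm x + 2 * ∑ p ∈ prs D, tm x h σ p := by
  have h1 : sqNorm ((cs h σ)ᵀ *ᵥ x)
      = ∑ i, ∑ j, col h i j * (sg (σ i) * sg (σ j)) * (x i * x j) := by
    simp only [sqNorm, Matrix.mulVec, dotProduct, Matrix.transpose_apply, cs]
    have : ∀ b : Fin k, (∑ i, (if h i = b then sg (σ i) else 0) * x i) ^ 2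
        = ∑ i, ∑ j, (if h i = b then 1 else 0) * (if h j = b then 1 else 0)
          * (sg (σ i) * sg (σ j)) * (x i * x j) := by
      intro b
      rw [sq, Finset.sum_mul_sum]
      refine Finset.sum_congr rfl fun i _ => Finset.sum_congr rfl fun j _ => ?_
      split_ifs <;> ring
    simp only [this]
    rw [Finset.sum_comm]
    refine Finset.sum_congr rfl fun i _ => ?_
    rw [Finset.sum_comm]
    refine Finset.sum_congr rfl fun j _ => ?_
    rw [← Finset.sum_mul, ← Finset.sum_mul]
    congr 2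
    simp only [ite_mul, one_mul, zero_mul, Finset.sum_ite_eq, Finset.mem_univ, if_true, col]
    by_cases hh : h i = h j
    · simp [hh]
    · simp [hh, Ne.symm hh]
  rw [h1, sum_offdiag (fun i j => col h i j * (sg (σ i) * sg (σ j)) * (x i * x j))]
  · simp only [sqNorm, tm]
    congr 1
    refine Finset.sum_congr rfl fun i _ => ?_
    have := sg_sq (σ i)
    simp only [col, if_true]
    linear_combination (x i) ^ 2 * this
  · intro i j
    simp only [col, eq_comm (a := h i)]
    ring

theorem upd_sum_one {f : Bool → ℝ} {a : ℝ} (hf : ∀ t, f t = a * sg t) : ∑ t, f t = 0 := by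
  simp only [hf, ← Finset.mul_sum, sg_sum, mul_zero]

/-- The mean of each cross term is zero. -/
theorem tm_mean (x : Fin D → ℝ) (h : Fin D → Fin k) {p : Fin D × Fin D} (hp : p ∈ prs D) :
    ∑ σ, tm x h σ p = 0 := by
  have hne : p.1 ≠ p.2 := by
    simp [prs] at hp; exact hp.ne
  refine sum_eq_zero_of_coord p.1 _ fun σ => ?_
  refine upd_sum_one (a := col h p.1 p.2 * sg (σ p.2) * (x p.1 * x p.2)) fun t => ?_
  simp only [tm, Function.update_self, Function.update_of_ne hne.symm]
  ring

/-- Cross terms of different pairs are orthogonal. -/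
theorem tm_orth (x : Fin D → ℝ) (h : Fin D → Fin k) {p q : Fin D × Fin D} (hp : p ∈ prs D)
    (hq : q ∈ prs D) (hpq : p ≠ q) : ∑ σ, tm x h σ p * tm x h σ q = 0 := by
  obtain ⟨i, j⟩ := p
  obtain ⟨a, b⟩ := q
  simp only [prs, Finset.mem_filter, Finset.mem_univ, true_and] at hp hq
  by_cases h1 : i = a ∨ i = b
  · have h2 : j ≠ a ∧ j ≠ b := by
      constructor
      · rintro rfl
        rcases h1 with rfl | rfl
        · exact lt_irrefl _ hp
        · exact lt_asymm hp hq
      · rintro rfl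
        rcases h1 with rfl | rfl
        · exact hpq rfl
        · exact lt_irrefl _ hp
    refine sum_eq_zero_of_coord j _ fun σ => ?_
    refine upd_sum_one (a := col h i j * sg (σ i) * (x i * x j) * tm x h σ (a, b)) fun t => ?_
    simp only [tm, Function.update_self, Function.update_of_ne hp.ne,
      Function.update_of_ne h2.1.symm, Function.update_of_ne h2.2.symm]
    ring
  · push Not at h1
    refine sum_eq_zero_of_coord i _ fun σ => ?_
    refine upd_sum_one (a := col h i j * sg (σ j) * (x i * x j) * tm x h σ (a, b)) fun t => ?_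
    simp only [tm, Function.update_self, Function.update_of_ne hp.ne',
      Function.update_of_ne h1.1.symm, Function.update_of_ne h1.2.symm]
    ring

theorem tm_sq (x : Fin D → ℝ) (h : Fin D → Fin k) (σ : Fin D → Bool) (p : Fin D × Fin D) :
    tm x h σ p * tm x h σ p = col h p.1 p.2 * (x p.1 ^ 2 * x p.2 ^ 2) := by
  have h1 := sg_sq (σ p.1)
  have h2 := sg_sq (σ p.2)
  have h3 := col_sq h p.1 p.2
  simp only [tm]
  calc _ = (col h p.1 p.2) ^ 2 * (sg (σ p.1) ^ 2 * sg (σ p.2) ^ 2) * (x p.1 ^ 2 * x p.2 ^ 2) := by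
        ring
    _ = _ := by rw [h1, h2, h3]; ring

theorem col_mean [NeZero k] {i j : Fin D} (hij : i ≠ j) :
    ∑ h : Fin D → Fin k, col h i j = (Fintype.card (Fin D → Fin k) : ℝ) / k := by
  have hk : (k : ℝ) ≠ 0 := by exact_mod_cast NeZero.ne k
  have h0 : ∑ h : Fin D → Fin k, (col h i j - 1 / k) = 0 := by
    refine sum_eq_zero_of_coord i _ fun h => ?_
    rw [Finset.sum_sub_distrib]
    simp only [col, Function.update_self, Function.update_of_ne hij.symm]
    simp
  rw [Finset.sum_sub_distrib] at h0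
  simp only [Finset.sum_const, Finset.card_univ, nsmul_eq_mul] at h0
  rw [sub_eq_zero] at h0
  rw [h0]; ring

/-- Second moment of the cross terms. -/
theorem cross_second [NeZero k] (x : Fin D → ℝ) :
    ∑ h : Fin D → Fin k, ∑ σ : Fin D → Bool, (2 * ∑ p ∈ prs D, tm x h σ p) ^ 2
      ≤ 2 / k * (Fintype.card (Fin D → Fin k) * Fintype.card (Fin D → Bool)) * sqNorm x ^ 2 := by
  have hk : (0 : ℝ) < k := by exact_mod_cast Nat.pos_of_ne_zero (NeZero.ne k)
  have h1 : ∀ h : Fin D → Fin k, ∑ σ : Fin D → Bool, (2 * ∑ p ∈ prs D, tm x h σ p) ^ 2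
      = 4 * Fintype.card (Fin D → Bool) * ∑ p ∈ prs D, col h p.1 p.2 * (x p.1 ^ 2 * x p.2 ^ 2) := by
    intro h
    have h2 : ∀ σ : Fin D → Bool, (2 * ∑ p ∈ prs D, tm x h σ p) ^ 2
        = 4 * ∑ p ∈ prs D, ∑ q ∈ prs D, tm x h σ p * tm x h σ q := by
      intro σ
      rw [mul_pow, sq (∑ p ∈ prs D, tm x h σ p), Finset.sum_mul_sum]; norm_num
    simp only [h2]
    rw [← Finset.mul_sum, mul_assoc]
    congr 1
    rw [Finset.sum_comm, Finset.mul_sum]
    refine Finset.sum_congr rfl fun p hp => ?_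
    rw [Finset.sum_comm, Finset.sum_eq_single p]
    · simp only [tm_sq, Finset.sum_const, Finset.card_univ, nsmul_eq_mul]
    · intro q hq hqp
      exact tm_orth x h hp hq hqp.symm
    · intro hh; exact absurd hp hh
  simp only [h1]
  rw [← Finset.mul_sum, Finset.sum_comm]
  have h3 : ∀ p ∈ prs D, ∑ h : Fin D → Fin k, col h p.1 p.2 * (x p.1 ^ 2 * x p.2 ^ 2)
      = (Fintype.card (Fin D → Fin k) : ℝ) / k * (x p.1 ^ 2 * x p.2 ^ 2) := by
    intro p hp
    have hne : p.1 ≠ p.2 := by
      simp [prs] at hp; exact hp.ne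
    rw [← Finset.sum_mul, col_mean hne]
  rw [Finset.sum_congr rfl h3, ← Finset.mul_sum]
  have h4 : 2 * ∑ p ∈ prs D, x p.1 ^ 2 * x p.2 ^ 2 ≤ sqNorm x ^ 2 := by
    have h5 := sum_offdiag (fun i j => x i ^ 2 * x j ^ 2) (fun i j => by ring)
    have h6 : sqNorm x ^ 2 = ∑ i, ∑ j, x i ^ 2 * x j ^ 2 := by
      rw [sqNorm, sq, Finset.sum_mul_sum]
    rw [h6, h5]
    have : 0 ≤ ∑ i, x i ^ 2 * x i ^ 2 := Finset.sum_nonneg fun i _ => by positivity
    linarith
  have h7 : (0 : ℝ) ≤ 2 * (Fintype.card (Fin D → Fin k) * Fintype.card (Fin D → Bool)) / k := by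
    positivity
  calc _ = (2 * (Fintype.card (Fin D → Fin k) * Fintype.card (Fin D → Bool)) / k)
        * (2 * ∑ p ∈ prs D, x p.1 ^ 2 * x p.2 ^ 2) := by ring
    _ ≤ (2 * (Fintype.card (Fin D → Fin k) * Fintype.card (Fin D → Bool)) / k) * sqNorm x ^ 2 :=
        mul_le_mul_of_nonneg_left h4 h7
    _ = _ := by ring

/-- First moment. -/
theorem cs_mean (x : Fin D → ℝ) :
    ∑ h : Fin D → Fin k, ∑ σ : Fin D → Bool, sqNorm ((cs h σ)ᵀ *ᵥ x)
      = Fintype.card (Fin D → Fin k) * Fintype.card (Fin D → Bool) * sqNorm x := by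
  simp only [cs_sq, Finset.sum_add_distrib, ← Finset.mul_sum]
  have : ∀ h : Fin D → Fin k, ∑ σ : Fin D → Bool, ∑ p ∈ prs D, tm x h σ p = 0 := by
    intro h
    rw [Finset.sum_comm]
    exact Finset.sum_eq_zero fun p hp => tm_mean x h hp
  simp only [this, Finset.sum_const_zero, mul_zero, add_zero, Finset.sum_const, Finset.card_univ,
    nsmul_eq_mul]
  ring

/-- Counting the bad outcomes for a vector. -/
theorem cs_bad [NeZero k] (x : Fin D → ℝ) (hx : 0 < sqNorm x) {η : ℝ} (hη : 0 < η) :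
    (∑ h : Fin D → Fin k, ∑ σ : Fin D → Bool,
      if sqNorm ((cs h σ)ᵀ *ᵥ x) < (1 - η) * sqNorm x then (1 : ℝ) else 0)
      ≤ 2 / (k * η ^ 2) * (Fintype.card (Fin D → Fin k) * Fintype.card (Fin D → Bool)) := by
  have hk : (0 : ℝ) < k := by exact_mod_cast Nat.pos_of_ne_zero (NeZero.ne k)
  have h1 := cross_second (k := k) x
  have h2 : (∑ h : Fin D → Fin k, ∑ σ : Fin D → Bool,
      if sqNorm ((cs h σ)ᵀ *ᵥ x) < (1 - η) * sqNorm x then (1 : ℝ) else 0) * (η * sqNorm x) ^ 2
      ≤ ∑ h : Fin D → Fin k, ∑ σ : Fin D → Bool, (2 * ∑ p ∈ prs D, tm x h σ p) ^ 2 := by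
    rw [Finset.sum_mul]
    refine Finset.sum_le_sum fun h _ => ?_
    rw [Finset.sum_mul]
    refine Finset.sum_le_sum fun σ _ => ?_
    split_ifs with hlt
    · rw [cs_sq] at hlt
      have h3 : 0 < η * sqNorm x := by positivity
      have h4 : η * sqNorm x < -(2 * ∑ p ∈ prs D, tm x h σ p) := by linarith
      nlinarith
    · rw [zero_mul]; positivity
  have h3 : 0 < (η * sqNorm x) ^ 2 := by positivity
  rw [← mul_le_mul_iff_of_pos_right h3]
  refine (h2.trans h1).trans (le_of_eq ?_)
  field_simp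

/-- Number of collisions with index `0`. -/
def n1 {N : ℕ} (h : Fin (N + 1) → Fin k) : ℝ := ∑ j : Fin N, col h j.succ 0

theorem n1_second [NeZero k] {N : ℕ} :
    ∑ h : Fin (N + 1) → Fin k, (n1 h - N / k) ^ 2
      ≤ N / k * Fintype.card (Fin (N + 1) → Fin k) := by
  have hk : (0 : ℝ) < k := by exact_mod_cast Nat.pos_of_ne_zero (NeZero.ne k)
  have hk1 : (1 : ℝ) ≤ k := by exact_mod_cast Nat.pos_of_ne_zero (NeZero.ne k)
  have e1 : ∀ h : Fin (N + 1) → Fin k, (n1 h - N / k) ^ 2
      = ∑ i : Fin N, ∑ j : Fin N, (col h i.succ 0 - 1 / k) * (col h j.succ 0 - 1 / k) := by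
    intro h
    rw [← Finset.sum_mul_sum, ← sq, n1, Finset.sum_sub_distrib]
    simp [Finset.card_univ]
    ring
  simp only [e1]
  rw [Finset.sum_comm]
  have e2 : ∀ i : Fin N, ∑ h : Fin (N + 1) → Fin k, ∑ j : Fin N,
      (col h i.succ 0 - 1 / k) * (col h j.succ 0 - 1 / k)
      ≤ 1 / k * Fintype.card (Fin (N + 1) → Fin k) := by
    intro i
    rw [Finset.sum_comm, Finset.sum_eq_single i]
    · have e3 : ∀ h : Fin (N + 1) → Fin k, (col h i.succ 0 - 1 / k) * (col h i.succ 0 - 1 / k)
          = (1 - 2 / k) * (col h i.succ 0) + 1 / k ^ 2 := by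
        intro h
        have := col_sq h i.succ 0
        field_simp
        linear_combination (k : ℝ) ^ 2 * this
      simp only [e3, Finset.sum_add_distrib, ← Finset.mul_sum]
      rw [col_mean (Fin.succ_ne_zero i)]
      simp only [Finset.sum_const, Finset.card_univ, nsmul_eq_mul]
      have hc : (0 : ℝ) ≤ Fintype.card (Fin (N + 1) → Fin k) := by positivity
      have : (1 - 2 / (k : ℝ)) * ((Fintype.card (Fin (N + 1) → Fin k) : ℝ) / k)
          + (Fintype.card (Fin (N + 1) → Fin k) : ℝ) * (1 / k ^ 2)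
          = 1 / k * Fintype.card (Fin (N + 1) → Fin k)
            - (Fintype.card (Fin (N + 1) → Fin k) : ℝ) / k ^ 2 := by
        field_simp; ring
      rw [this]
      have : 0 ≤ (Fintype.card (Fin (N + 1) → Fin k) : ℝ) / k ^ 2 := by positivity
      linarith
    · intro j _ hji
      refine sum_eq_zero_of_coord j.succ _ fun h => ?_
      have hne : i.succ ≠ j.succ := fun hh => hji (Fin.succ_injective _ hh).symm
      simp only [col, Function.update_self, Function.update_of_ne (Fin.succ_ne_zero j).symm,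
        Function.update_of_ne hne]
      rw [← Finset.mul_sum, Finset.sum_sub_distrib]
      simp
    · intro hh; exact absurd (Finset.mem_univ i) hh
  refine (Finset.sum_le_sum fun i _ => e2 i).trans (le_of_eq ?_)
  simp [Finset.card_univ]
  ring

/-- Counting the hash functions with few collisions with index `0`. -/
theorem n1_bad [NeZero k] {N : ℕ} (hN : 0 < N) :
    (∑ h : Fin (N + 1) → Fin k, if n1 h < N / (2 * k) then (1 : ℝ) else 0)
      ≤ 4 * k / N * Fintype.card (Fin (N + 1) → Fin k) := by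
  have hk : (0 : ℝ) < k := by exact_mod_cast Nat.pos_of_ne_zero (NeZero.ne k)
  have hN' : (0 : ℝ) < N := by exact_mod_cast hN
  have h1 := n1_second (k := k) (N := N)
  have h2 : (∑ h : Fin (N + 1) → Fin k, if n1 h < N / (2 * k) then (1 : ℝ) else 0)
      * (N / (2 * k)) ^ 2 ≤ ∑ h : Fin (N + 1) → Fin k, (n1 h - N / k) ^ 2 := by
    rw [Finset.sum_mul]
    refine Finset.sum_le_sum fun h _ => ?_
    split_ifs with hlt
    · have h3 : (N : ℝ) / k = 2 * (N / (2 * k)) := by field_simp
      have h4 : 0 < (N : ℝ) / (2 * k) := by positivity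
      nlinarith
    · rw [zero_mul]; positivity
  have h3 : 0 < ((N : ℝ) / (2 * k)) ^ 2 := by positivity
  rw [← mul_le_mul_iff_of_pos_right h3]
  refine (h2.trans h1).trans (le_of_eq ?_)
  field_simp
  ring

/-! ### The error of the range of `A Ω` -/

/-- Singular values: `√N` once and `1` repeated `N` times. -/
noncomputable def sv (N : ℕ) (i : Fin (N + 1)) : ℝ := if i = 0 then √N else 1

/-- Squared singular values. -/
noncomputable def wv (N : ℕ) (i : Fin (N + 1)) : ℝ := if i = 0 then (N : ℝ) else 1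

theorem sv_sq (N : ℕ) (i : Fin (N + 1)) : sv N i ^ 2 = wv N i := by
  unfold sv wv; split_ifs
  · exact Real.sq_sqrt (by positivity)
  · simp

/-- Total weight of the bucket of `j`. -/
noncomputable def W {N : ℕ} (h : Fin (N + 1) → Fin k) (j : Fin (N + 1)) : ℝ :=
  ∑ i, col h i j * wv N i

theorem err_lower {N : ℕ} (hN : 0 < N) (h : Fin (N + 1) → Fin k) (σ : Fin (N + 1) → Bool)
    (X : Matrix (Fin k) (Fin (N + 1)) ℝ) :
    ∑ j, (wv N j - wv N j ^ 2 / W h j) ≤
      ∑ i, ∑ j, (diagonal (sv N) - diagonal (sv N) * cs h σ * X) i j ^ 2 := by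
  have hN' : (0 : ℝ) < N := by exact_mod_cast hN
  have hw : ∀ i, 0 < wv N i := by
    intro i; unfold wv; split_ifs <;> simp [hN]
  rw [Finset.sum_comm]
  refine Finset.sum_le_sum fun j _ => ?_
  have e1 : ∀ i, (diagonal (sv N) - diagonal (sv N) * cs h σ * X) i j ^ 2
      = wv N i * ((if i = j then 1 else 0) - sg (σ i) * X (h i) j) ^ 2 := by
    intro i
    have : (diagonal (sv N) * cs h σ * X) i j = sv N i * (sg (σ i) * X (h i) j) := by
      rw [Matrix.mul_apply]
      simp [Matrix.diagonal_mul, cs]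
      ring
    rw [Matrix.sub_apply, this, ← sv_sq, Matrix.diagonal_apply]
    split_ifs with hij <;> ring
  simp only [e1]
  have e2 : ∀ i, col h i j * (wv N i * (X (h j) j) ^ 2)
      + (if i = j then wv N j * (1 - 2 * (sg (σ j) * X (h j) j)) else 0)
      ≤ wv N i * ((if i = j then 1 else 0) - sg (σ i) * X (h i) j) ^ 2 := by
    intro i
    by_cases hij : i = j
    · subst hij
      have h1 := sg_sq (σ i)
      simp only [col, if_true]
      refine le_of_eq ?_
      linear_combination (- wv N i * (X (h i) i) ^ 2) * h1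
    · simp only [hij, if_false, add_zero, zero_sub, col]
      split_ifs with hc
      · have h1 := sg_sq (σ i)
        rw [hc]
        refine le_of_eq ?_
        linear_combination (- wv N i * (X (h j) j) ^ 2) * h1
      · have := hw i
        rw [zero_mul]; positivity
  refine le_trans ?_ (Finset.sum_le_sum fun i _ => e2 i)
  rw [Finset.sum_add_distrib, Finset.sum_ite_eq' Finset.univ j]
  simp only [Finset.mem_univ, if_true]
  have e3 : ∑ i, col h i j * (wv N i * (X (h j) j) ^ 2) = W h j * (X (h j) j) ^ 2 := by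
    rw [W, Finset.sum_mul]
    exact Finset.sum_congr rfl fun i _ => by ring
  rw [e3]
  have hWpos : 0 < W h j := by
    have : wv N j ≤ W h j := by
      have h0 : col h j j * wv N j = wv N j := by simp [col]
      rw [← h0, W]
      refine Finset.single_le_sum (f := fun i => col h i j * wv N i) (fun i _ => ?_)
        (Finset.mem_univ j)
      have := hw i
      unfold col; split_ifs <;> simp [this.le]
    exact (hw j).trans_le this
  have h1 := sg_sq (σ j)
  have h2 : 0 ≤ W h j * (X (h j) j - sg (σ j) * wv N j / W h j) ^ 2 := by positivity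
  have h3 : W h j * (X (h j) j - sg (σ j) * wv N j / W h j) ^ 2
      = W h j * (X (h j) j) ^ 2 - 2 * wv N j * (sg (σ j) * X (h j) j) + wv N j ^ 2 / W h j := by
    field_simp
    linear_combination (wv N j) ^ 2 * h1
  linarith

theorem n1_nonneg {N : ℕ} (h : Fin (N + 1) → Fin k) : 0 ≤ n1 h :=
  Finset.sum_nonneg fun i _ => by unfold col; split_ifs <;> norm_num

theorem n1_le {N : ℕ} (h : Fin (N + 1) → Fin k) : n1 h ≤ N := by
  have : n1 h ≤ ∑ _j : Fin N, (1 : ℝ) := Finset.sum_le_sum fun i _ => by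
    unfold col; split_ifs <;> norm_num
  simpa using this

theorem sum_lower {N : ℕ} (hN : 0 < N) (h : Fin (N + 1) → Fin k) :
    (N : ℝ) - k + n1 h / 2 ≤ ∑ j, (wv N j - wv N j ^ 2 / W h j) := by
  have hN' : (0 : ℝ) < N := by exact_mod_cast hN
  rw [Fin.sum_univ_succ]
  have hW0 : W h 0 = N + n1 h := by
    rw [W, Fin.sum_univ_succ, n1]
    simp [wv, col, Fin.succ_ne_zero]
  have hn0 := n1_nonneg h
  have hn1 := n1_le h
  have e0 : n1 h / 2 ≤ wv N 0 - wv N 0 ^ 2 / W h 0 := by
    rw [hW0]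
    have hpos : 0 < (N : ℝ) + n1 h := by linarith
    simp only [wv, if_true]
    rw [← sub_nonneg]
    have : (N : ℝ) - N ^ 2 / (N + n1 h) - n1 h / 2 = n1 h * (N - n1 h) / (2 * (N + n1 h)) := by
      field_simp; ring
    rw [this]
    have : 0 ≤ N - n1 h := by linarith
    positivity
  set m : Fin k → ℝ := fun b => ∑ i : Fin N, if h i.succ = b then 1 else 0 with hm
  have hmW : ∀ j : Fin N, m (h j.succ) ≤ W h j.succ := by
    intro j
    rw [W, Fin.sum_univ_succ, hm]
    have h1 : 0 ≤ col h 0 j.succ * wv N 0 := by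
      unfold col wv; split_ifs <;> simp
    have h2 : ∑ i : Fin N, (if h i.succ = h j.succ then (1 : ℝ) else 0)
        = ∑ i : Fin N, col h i.succ j.succ * wv N i.succ := by
      refine Finset.sum_congr rfl fun i _ => ?_
      simp [col, wv, Fin.succ_ne_zero]
    simp only []
    rw [h2]; linarith
  have hm1 : ∀ j : Fin N, 1 ≤ m (h j.succ) := by
    intro j
    have : (if h j.succ = h j.succ then (1 : ℝ) else 0) ≤ m (h j.succ) := by
      rw [hm]
      refine Finset.single_le_sum (f := fun i : Fin N => if h i.succ = h j.succ then (1 : ℝ) else 0)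
        (fun i _ => ?_) (Finset.mem_univ j)
      split_ifs <;> norm_num
    simpa using this
  have hsum : ∑ j : Fin N, wv N j.succ ^ 2 / W h j.succ ≤ k := by
    have h3 : ∀ j : Fin N, wv N j.succ ^ 2 / W h j.succ
        ≤ ∑ b : Fin k, (if h j.succ = b then 1 else 0) / m b := by
      intro j
      have : ∑ b : Fin k, (if h j.succ = b then 1 else 0) / m b = 1 / m (h j.succ) := by
        rw [Finset.sum_eq_single (h j.succ)]
        · simp
        · intro b _ hb; simp [Ne.symm hb]
        · intro hh; exact absurd (Finset.mem_univ _) hh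
      rw [this]
      have h4 : wv N j.succ = 1 := by simp [wv, Fin.succ_ne_zero]
      rw [h4, one_pow]
      exact one_div_le_one_div_of_le (lt_of_lt_of_le one_pos (hm1 j)) (hmW j)
    refine (Finset.sum_le_sum fun j _ => h3 j).trans ?_
    rw [Finset.sum_comm]
    have h5 : ∀ b : Fin k, ∑ j : Fin N, (if h j.succ = b then 1 else 0) / m b ≤ 1 := by
      intro b
      rw [← Finset.sum_div]
      exact div_self_le_one _
    refine (Finset.sum_le_sum fun b _ => h5 b).trans ?_
    simp
  have e1 : ∑ j : Fin N, (wv N j.succ - wv N j.succ ^ 2 / W h j.succ) ≥ N - k := by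
    rw [Finset.sum_sub_distrib]
    have : ∑ j : Fin N, wv N j.succ = N := by simp [wv, Fin.succ_ne_zero]
    rw [this]; linarith
  linarith

end cs

/-! ### The counterexample -/

section main

variable {N k : ℕ}

/-- Sample space: either the zero sketch, or a hash function and a sign function. -/
abbrev Smp (N k : ℕ) : Type := Option ((Fin (N + 1) → Fin k) × (Fin (N + 1) → Bool))

instance : MeasurableSpace (Smp N k) := ⊤
instance : MeasurableSingletonClass (Smp N k) := ⟨fun _ => trivial⟩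
instance : DiscreteMeasurableSpace (Smp N k) := ⟨fun _ => trivial⟩

/-- Probability weights. -/
noncomputable def wt (de : ℝ) (s : Smp N k) : ℝ :=
  match s with
  | none => de / 2
  | some _ => (1 - de / 2) /
      (Fintype.card (Fin (N + 1) → Fin k) * Fintype.card (Fin (N + 1) → Bool))

/-- The random sketching matrix. -/
noncomputable def om (de : ℝ) (s : Smp N k) : Matrix (Fin (N + 1)) (Fin k) ℝ :=
  match s with
  | none => 0
  | some p => (√(1 - de / 2))⁻¹ • cs p.1 p.2

theorem sum_smp (f : Smp N k → ℝ) :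
    ∑ s, f s = f none + ∑ h : Fin (N + 1) → Fin k, ∑ σ : Fin (N + 1) → Bool, f (some (h, σ)) := by
  rw [Fintype.sum_option, Fintype.sum_prod_type]

theorem cards_pos [NeZero k] : (0 : ℝ) < Fintype.card (Fin (N + 1) → Fin k)
    * Fintype.card (Fin (N + 1) → Bool) := by
  have h1 : 0 < Fintype.card (Fin (N + 1) → Fin k) := Fintype.card_pos
  have h2 : 0 < Fintype.card (Fin (N + 1) → Bool) := Fintype.card_pos
  positivity

theorem wt_nonneg [NeZero k] {de : ℝ} (h0 : 0 < de) (h1 : de < 1) (s : Smp N k) : 0 ≤ wt de s := by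
  have := cards_pos (N := N) (k := k)
  cases s with
  | none => simp only [wt]; linarith
  | some p =>
    simp only [wt]
    have : 0 < 1 - de / 2 := by linarith
    positivity

theorem wt_sum [NeZero k] {de : ℝ} : ∑ s : Smp N k, wt de s = 1 := by
  have := cards_pos (N := N) (k := k)
  rw [sum_smp]
  simp only [wt, Finset.sum_const, Finset.card_univ, nsmul_eq_mul]
  rw [← mul_assoc, mul_comm _ ((1 - de / 2) / _), div_mul_cancel₀ _ this.ne']
  ring

theorem sqNorm_smul {n : ℕ} (c : ℝ) (x : Fin n → ℝ) : sqNorm (c • x) = c ^ 2 * sqNorm x := by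
  simp only [sqNorm, Pi.smul_apply, smul_eq_mul, mul_pow, Finset.mul_sum]

theorem om_sq {de : ℝ} (h1 : de < 1) (h : Fin (N + 1) → Fin k) (σ : Fin (N + 1) → Bool)
    (x : Fin (N + 1) → ℝ) :
    sqNorm ((om de (some (h, σ)))ᵀ *ᵥ x) = (1 - de / 2)⁻¹ * sqNorm ((cs h σ)ᵀ *ᵥ x) := by
  have : 0 ≤ 1 - de / 2 := by linarith
  simp only [om, Matrix.transpose_smul, Matrix.smul_mulVec, sqNorm_smul, inv_pow,
    Real.sq_sqrt this]

theorem om_osi [NeZero k] {de : ℝ} (h0 : 0 < de) (h1 : de < 1) (hk : 16 / de ^ 3 ≤ k) {e : ℝ}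
    (he : 0 < e) (he1 : e < 1) :
    IsOSI (mu (wt de)) (om (N := N) (k := k) de) 1 (1 - e) de := by
  have hM := cards_pos (N := N) (k := k)
  have hq : 0 < 1 - de / 2 := by linarith
  refine ⟨fun i j => measurable_of_finite _, fun x => mu_integrable _, fun x => ?_, fun V hV => ?_⟩
  · rw [mu_integral (wt_nonneg h0 h1), sum_smp]
    simp only [om_sq h1, wt]
    have : sqNorm ((om (N := N) (k := k) de none)ᵀ *ᵥ x) = 0 := by simp [om, sqNorm]
    rw [this]
    simp only [← Finset.mul_sum]
    rw [cs_mean]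
    have hq2 : (2 - de) ≠ 0 := by linarith
    field_simp
    ring
  · classical
    have := mu_prob (wt_nonneg (N := N) (k := k) h0 h1) wt_sum
    obtain ⟨v, hv0, hv⟩ := finrank_eq_one_iff'.mp hV
    set x : Fin (N + 1) → ℝ := (v : Fin (N + 1) → ℝ) with hx
    have hx0 : 0 < sqNorm x := by
      have hne : x ≠ 0 := by
        intro hh; exact hv0 (Subtype.ext hh)
      obtain ⟨i, hi⟩ : ∃ i, x i ≠ 0 := by
        by_contra hcon
        push Not at hcon
        exact hne (funext hcon)
      refine lt_of_lt_of_le (by positivity : 0 < x i ^ 2) ?_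
      exact Finset.single_le_sum (f := fun i => x i ^ 2) (fun j _ => sq_nonneg _)
        (Finset.mem_univ i)
    have hsub : {s : Smp N k | (1 - e) * sqNorm x ≤ sqNorm ((om de s)ᵀ *ᵥ x)} ⊆
        {s | ∀ y ∈ V, (1 - e) * sqNorm y ≤ sqNorm ((om de s)ᵀ *ᵥ y)} := by
      intro s hs y hy
      obtain ⟨c, hc⟩ := hv ⟨y, hy⟩
      have hc' : y = c • x := by
        have := congrArg Subtype.val hc
        simpa using this.symm
      rw [hc', Matrix.mulVec_smul, sqNorm_smul, sqNorm_smul]
      have hs' : (1 - e) * sqNorm x ≤ sqNorm ((om de s)ᵀ *ᵥ x) := hs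
      nlinarith [sq_nonneg c]
    refine le_trans ?_ (measureReal_mono hsub)
    rw [mu_real (wt_nonneg h0 h1), sum_smp]
    have hbad := cs_bad (k := k) x hx0 (η := de / 2) (by linarith)
    have hnone : (0 : ℝ) ≤ if (none : Smp N k) ∈
        {s : Smp N k | (1 - e) * sqNorm x ≤ sqNorm ((om de s)ᵀ *ᵥ x)}
        then wt de (none : Smp N k) else 0 := by
      split_ifs
      · exact wt_nonneg h0 h1 _
      · exact le_rfl
    set M : ℝ := Fintype.card (Fin (N + 1) → Fin k) * Fintype.card (Fin (N + 1) → Bool) with hMdef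
    have hsum : (∑ h : Fin (N + 1) → Fin k, ∑ σ : Fin (N + 1) → Bool,
        (1 - de / 2) / M * (1 - if sqNorm ((cs h σ)ᵀ *ᵥ x) < (1 - de / 2) * sqNorm x
          then (1 : ℝ) else 0))
        ≤ ∑ h : Fin (N + 1) → Fin k, ∑ σ : Fin (N + 1) → Bool,
        (if (some (h, σ) : Smp N k) ∈
        {s : Smp N k | (1 - e) * sqNorm x ≤ sqNorm ((om de s)ᵀ *ᵥ x)}
        then wt de (some (h, σ)) else 0) := by
      refine Finset.sum_le_sum fun h _ => Finset.sum_le_sum fun σ _ => ?_
      by_cases hlt : sqNorm ((cs h σ)ᵀ *ᵥ x) < (1 - de / 2) * sqNorm x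
      · rw [if_pos hlt]
        simp only [sub_self, mul_zero]
        split_ifs
        · exact wt_nonneg h0 h1 _
        · exact le_rfl
      · rw [if_neg hlt]
        push Not at hlt
        have hmem : (some (h, σ) : Smp N k) ∈
            {s : Smp N k | (1 - e) * sqNorm x ≤ sqNorm ((om de s)ᵀ *ᵥ x)} := by
          rw [Set.mem_setOf_eq, om_sq h1]
          have h3 : sqNorm x ≤ (1 - de / 2)⁻¹ * sqNorm ((cs h σ)ᵀ *ᵥ x) := by
            rw [inv_mul_eq_div, le_div_iff₀ hq, mul_comm]; exact hlt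
          nlinarith
        rw [if_pos hmem]
        simp [wt, hMdef]
    have hsum2 : (∑ h : Fin (N + 1) → Fin k, ∑ σ : Fin (N + 1) → Bool,
        (1 - de / 2) / M * (1 - if sqNorm ((cs h σ)ᵀ *ᵥ x) < (1 - de / 2) * sqNorm x
          then (1 : ℝ) else 0))
        = (1 - de / 2) / M * (M - ∑ h : Fin (N + 1) → Fin k, ∑ σ : Fin (N + 1) → Bool,
          if sqNorm ((cs h σ)ᵀ *ᵥ x) < (1 - de / 2) * sqNorm x then (1 : ℝ) else 0) := by
      simp only [← Finset.mul_sum, Finset.sum_sub_distrib]
      congr 2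
      simp [hMdef, Finset.card_univ]
    rw [hsum2] at hsum
    have hkpos : (0 : ℝ) < k := by exact_mod_cast Nat.pos_of_ne_zero (NeZero.ne k)
    have hk2 : 2 / ((k : ℝ) * (de / 2) ^ 2) ≤ de / 2 := by
      rw [div_le_iff₀ (by positivity)]
      rw [div_le_iff₀ (by positivity)] at hk
      nlinarith
    have hfin : (1 - de / 2) * (1 - de / 2) ≤ (1 - de / 2) / M * (M -
        ∑ h : Fin (N + 1) → Fin k, ∑ σ : Fin (N + 1) → Bool,
          if sqNorm ((cs h σ)ᵀ *ᵥ x) < (1 - de / 2) * sqNorm x then (1 : ℝ) else 0) := by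
      rw [div_mul_eq_mul_div, le_div_iff₀ hM, mul_assoc]
      refine mul_le_mul_of_nonneg_left ?_ hq.le
      have := hbad.trans (mul_le_mul_of_nonneg_right hk2 hM.le)
      linarith
    nlinarith [sq_nonneg de]

theorem diag_rank_le : (diagonal (fun i : Fin (N + 1) => if i = 0 then √(N : ℝ) else 0) :
    Matrix (Fin (N + 1)) (Fin (N + 1)) ℝ).rank ≤ 1 := by
  classical
  rw [Matrix.rank_diagonal]
  refine (Fintype.card_le_one_iff_subsingleton).mpr ⟨?_⟩
  rintro ⟨a, ha⟩ ⟨b, hb⟩
  have ha' : a = 0 := by by_contra hh; simp [hh] at ha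
  have hb' : b = 0 := by by_contra hh; simp [hh] at hb
  exact Subtype.ext (ha'.trans hb'.symm)

theorem bestErr_le : bestErr (diagonal (sv N)) 1 ≤ √(N : ℝ) := by
  refine (ciInf_le ⟨0, ?_⟩ ⟨_, diag_rank_le⟩).trans (le_of_eq ?_)
  · rintro _ ⟨B, rfl⟩
    exact Real.sqrt_nonneg _
  · rw [frob]
    congr 1
    have : ∀ i j : Fin (N + 1), (diagonal (sv N) -
        diagonal (fun i : Fin (N + 1) => if i = 0 then √(N : ℝ) else 0)) i j ^ 2
        = if i = j then (if i = 0 then 0 else 1) else 0 := by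
      intro i j
      rw [Matrix.sub_apply, Matrix.diagonal_apply, Matrix.diagonal_apply]
      by_cases hij : i = j
      · by_cases hi : i = 0
        · simp [hi, sv]
        · simp [hi, sv]
      · simp [hij]
    simp only [this]
    simp [Fin.sum_univ_succ, Fin.succ_ne_zero]

theorem bestErr_nonneg {n d : ℕ} (A : Matrix (Fin n) (Fin d) ℝ) (r : ℕ) : 0 ≤ bestErr A r := by
  have : Nonempty {B : Matrix (Fin n) (Fin d) ℝ // B.rank ≤ r} := ⟨⟨0, by simp⟩⟩
  exact le_ciInf fun B => Real.sqrt_nonneg _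

/-- On every outcome with enough collisions, the error is large. -/
theorem err_big (hN : 0 < N) (hN8 : 8 * (k : ℝ) ^ 2 < N) (hk : 0 < k) {de : ℝ} (s : Smp N k)
    (hs : ∀ p, s = some p → (N : ℝ) / (2 * k) ≤ n1 p.1) :
    √((1 + 1 / (8 * k)) * N) < frob (diagonal (sv N) - rsvd (om de s) (diagonal (sv N))) := by
  have hN' : (0 : ℝ) < N := by exact_mod_cast hN
  have hk' : (1 : ℝ) ≤ k := by exact_mod_cast hk
  have hk0 : (0 : ℝ) < k := by linarith
  rw [frob]
  refine Real.sqrt_lt_sqrt (by positivity) ?_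
  cases s with
  | none =>
    simp only [rsvd, om, Matrix.mul_zero, Matrix.zero_mul, sub_zero]
    have : ∀ i j : Fin (N + 1), (diagonal (sv N)) i j ^ 2 = if i = j then wv N i else 0 := by
      intro i j
      rw [Matrix.diagonal_apply]
      split_ifs
      · exact sv_sq N i
      · simp
    simp only [this]
    simp [wv, Fin.sum_univ_succ, Fin.succ_ne_zero]
    have h8 : (k : ℝ)⁻¹ * 8⁻¹ ≤ 1 / 8 := by
      rw [← mul_inv, inv_eq_one_div]
      exact one_div_le_one_div_of_le (by norm_num) (by linarith)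
    nlinarith
  | some p =>
    obtain ⟨h, σ⟩ := p
    have hp := hs (h, σ) rfl
    simp only at hp
    have e1 : rsvd (om de (some (h, σ))) (diagonal (sv N))
        = diagonal (sv N) * cs h σ * ((√(1 - de / 2))⁻¹ •
          (pinv (diagonal (sv N) * om de (some (h, σ))) * diagonal (sv N))) := by
      simp only [rsvd, om]
      rw [Matrix.mul_smul, Matrix.smul_mul, Matrix.smul_mul, Matrix.mul_assoc, Matrix.mul_smul]
    rw [e1]
    refine lt_of_lt_of_le ?_ ((sum_lower hN h).trans (err_lower hN h σ _))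
    have h2 : (N : ℝ) / (4 * k) ≤ n1 h / 2 := by
      have : (N : ℝ) / (4 * k) = (N / (2 * k)) / 2 := by field_simp; ring
      rw [this]; linarith
    have h3 : (1 + 1 / (8 * (k : ℝ))) * N = N + N / (8 * k) := by field_simp
    have h4 : (N : ℝ) / (4 * k) = N / (8 * k) + N / (8 * k) := by field_simp; ring
    have h5 : (k : ℝ) < N / (8 * k) := by
      rw [lt_div_iff₀ (by positivity)]; nlinarith
    rw [h3]; linarith

/-- For every constant failure probability `de` in `(0,1)` (in particular `de = 1/100`), every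
constant `C` and every `c₀ > 0`, there are a matrix `A`, a rank `r ≥ 1`, `ε ∈ (0,1)` and an
oblivious subspace injection of dimension `r`, injectivity `1 - ε` and failure probability `de`
for which the relative-error bound fails with probability `> 1 - c₀`. -/
theorem result (de : ℝ) (hde0 : 0 < de) (hde1 : de < 1) (C c₀ : ℝ) (hc₀ : 0 < c₀) :
    ∃ (n d k r : ℕ) (ε : ℝ) (A : Matrix (Fin n) (Fin d) ℝ)
      (S : Type) (_ : MeasurableSpace S) (P : Measure S) (Om : S → Matrix (Fin d) (Fin k) ℝ),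
      1 ≤ r ∧ 0 < ε ∧ ε < 1 ∧ IsProbabilityMeasure P ∧ IsOSI P Om r (1 - ε) de ∧
      1 - c₀ < P.real {s | (1 + C * ε) * bestErr A r < frob (A - rsvd (Om s) A)} := by
  obtain ⟨k, hk⟩ := exists_nat_gt (16 / de ^ 3)
  have hk0 : (0 : ℝ) < k := lt_trans (by positivity) hk
  have hk0' : 0 < k := by exact_mod_cast hk0
  have hk1 : (1 : ℝ) ≤ k := by exact_mod_cast hk0'
  have : NeZero k := ⟨hk0'.ne'⟩
  obtain ⟨N, hN⟩ := exists_nat_gt (max (8 * (k : ℝ) ^ 2) (4 * k / c₀))
  have hN8 : 8 * (k : ℝ) ^ 2 < N := lt_of_le_of_lt (le_max_left _ _) hN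
  have hNc : 4 * k / c₀ < N := lt_of_le_of_lt (le_max_right _ _) hN
  have hN0 : (0 : ℝ) < N := lt_trans (by positivity) hN8
  have hN0' : 0 < N := by exact_mod_cast hN0
  set e : ℝ := 1 / (32 * k * (|C| + 1)) with he
  have hC : 0 < |C| + 1 := by positivity
  have he0 : 0 < e := by positivity
  have hCe : |C| * e ≤ 1 / (32 * k) := by
    rw [he, mul_one_div, div_le_div_iff₀ (by positivity) (by positivity)]
    nlinarith [abs_nonneg C]
  have he1 : e < 1 := by
    rw [he, div_lt_one (by positivity)]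
    nlinarith [abs_nonneg C]
  refine ⟨N + 1, N + 1, k, 1, e, diagonal (sv N), Smp N k, inferInstance, mu (wt de), om de,
    le_rfl, he0, he1, mu_prob (wt_nonneg hde0 hde1) wt_sum, om_osi hde0 hde1 hk.le he0 he1, ?_⟩
  classical
  have := mu_prob (wt_nonneg (N := N) (k := k) hde0 hde1) wt_sum
  have hM := cards_pos (N := N) (k := k)
  have hq : 0 < 1 - de / 2 := by linarith
  have hup : (1 + C * e) * bestErr (diagonal (sv N)) 1 ≤ √((1 + 1 / (8 * k)) * N) := by
    have h1 : 1 + C * e ≤ 1 + 1 / (32 * k) := by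
      have : C * e ≤ |C| * e := mul_le_mul_of_nonneg_right (le_abs_self C) he0.le
      linarith
    have h2 : (1 + C * e) * bestErr (diagonal (sv N)) 1 ≤ (1 + 1 / (32 * k)) * √(N : ℝ) :=
      (mul_le_mul_of_nonneg_right h1 (bestErr_nonneg _ _)).trans
        (mul_le_mul_of_nonneg_left bestErr_le (by positivity))
    refine h2.trans ?_
    refine Real.le_sqrt_of_sq_le ?_
    rw [mul_pow, Real.sq_sqrt hN0.le]
    refine mul_le_mul_of_nonneg_right ?_ hN0.le
    have h3 : 1 / (32 * (k : ℝ)) = (1 / (8 * k)) / 4 := by field_simp; norm_num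
    have h4 : 1 / (8 * (k : ℝ)) ≤ 1 := by
      rw [div_le_one (by positivity)]; linarith
    have h5 : 0 < 1 / (8 * (k : ℝ)) := by positivity
    rw [h3]; nlinarith
  set good : Set (Smp N k) := {s | ∀ p, s = some p → (N : ℝ) / (2 * k) ≤ n1 p.1} with hgood
  have hsub : good ⊆ {s | (1 + C * e) * bestErr (diagonal (sv N)) 1
      < frob (diagonal (sv N) - rsvd (om de s) (diagonal (sv N)))} := by
    intro s hs
    exact lt_of_le_of_lt hup (err_big hN0' hN8 hk0' s hs)
  refine lt_of_lt_of_le ?_ (measureReal_mono hsub)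
  rw [mu_real (wt_nonneg hde0 hde1), sum_smp]
  have hnone : (none : Smp N k) ∈ good := by
    intro p hp; cases hp
  rw [if_pos hnone]
  set M1 : ℝ := ((Fintype.card (Fin (N + 1) → Fin k) : ℕ) : ℝ) with hM1
  set M2 : ℝ := ((Fintype.card (Fin (N + 1) → Bool) : ℕ) : ℝ) with hM2
  have hM1pos : 0 < M1 := by
    have : 0 < Fintype.card (Fin (N + 1) → Fin k) := Fintype.card_pos
    rw [hM1]; exact_mod_cast this
  have hM2pos : 0 < M2 := by
    have : 0 < Fintype.card (Fin (N + 1) → Bool) := Fintype.card_pos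
    rw [hM2]; exact_mod_cast this
  have hsum : ∀ h : Fin (N + 1) → Fin k, ∑ σ : Fin (N + 1) → Bool,
      (if (some (h, σ) : Smp N k) ∈ good then wt de (some (h, σ)) else 0)
      = (1 - de / 2) / M1 * (1 - if n1 h < N / (2 * k) then (1 : ℝ) else 0) := by
    intro h
    have : ∀ σ : Fin (N + 1) → Bool, (if (some (h, σ) : Smp N k) ∈ good
        then wt de (some (h, σ)) else 0)
        = (1 - de / 2) / (M1 * M2) * (1 - if n1 h < N / (2 * k) then (1 : ℝ) else 0) := by
      intro σ
      by_cases hlt : n1 h < N / (2 * k)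
      · have hnot : (some (h, σ) : Smp N k) ∉ good := by
          intro hh
          have := hh (h, σ) rfl
          simp only at this
          linarith
        rw [if_neg hnot, if_pos hlt]; ring
      · have hmem : (some (h, σ) : Smp N k) ∈ good := by
          intro p hp
          cases hp
          push Not at hlt
          exact hlt
        rw [if_pos hmem, if_neg hlt]
        simp [wt, hM1, hM2]
    simp only [this, Finset.sum_const, Finset.card_univ, nsmul_eq_mul, ← hM2]
    field_simp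
  simp only [hsum, ← Finset.mul_sum, Finset.sum_sub_distrib, Finset.sum_const, Finset.card_univ,
    nsmul_eq_mul, mul_one, ← hM1]
  have hb := n1_bad (k := k) hN0'
  rw [← hM1] at hb
  have hc : 4 * (k : ℝ) / N < c₀ := by
    rw [div_lt_iff₀ hN0]
    rw [div_lt_iff₀ hc₀] at hNc
    linarith
  have h1 : (1 - de / 2) * (1 - 4 * k / N) ≤ (1 - de / 2) / M1 *
      (M1 - ∑ h : Fin (N + 1) → Fin k, if n1 h < N / (2 * k) then (1 : ℝ) else 0) := by
    rw [div_mul_eq_mul_div, le_div_iff₀ hM1pos, mul_assoc]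
    refine mul_le_mul_of_nonneg_left ?_ hq.le
    linarith
  have h2 : (wt de (none : Smp N k)) = de / 2 := rfl
  rw [h2]
  have h3 : 0 < 4 * (k : ℝ) / N := by positivity
  nlinarith

end main

end Pool.Agent.Results.MP_082b65_an.RandSVD
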